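import Mathlib

set_option autoImplicit false

/-! Bounded functionality of the prime graphs of a hereditary class implies bounded functionality
of the class. -/

namespace Pool.Agent.Results.MP_42f001_co.PrimeSuffices

open SimpleGraph

/-- `y` is a function of the (other) vertices `x 0, …, x (k-1)` in `G`. -/
def IsFunctionOf {V : Type} (G : SimpleGraph V) (y : V) {k : ℕ} (x : Fin k → V) : Prop :=
  (∀ i, x i ≠ y) ∧ ∃ f : (Fin k → Prop) → Prop, ∀ z, z ≠ y → (∀ i, z ≠ x i) →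
    (G.Adj y z ↔ f (fun i => G.Adj (x i) z))

/-- The functionality of the vertex `y` in `G`. -/
noncomputable def vertexFun {V : Type} (G : SimpleGraph V) (y : V) : ℕ :=
  sInf {k | ∃ x : Fin k → V, IsFunctionOf G y x}

/-- The functionality of `G` is at most `k`: every nonempty induced subgraph `H` has a vertex whose
functionality in `H` is at most `k`. -/
def FunLE {V : Type} (G : SimpleGraph V) (k : ℕ) : Prop :=
  ∀ S : Set V, S.Nonempty → ∃ y : S, vertexFun (G.induce S) y ≤ k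

/-- `M` is a module of `G`. -/
def IsModule {V : Type} (G : SimpleGraph V) (M : Set V) : Prop :=
  ∀ z, z ∉ M → (∀ x ∈ M, G.Adj z x) ∨ (∀ x ∈ M, ¬ G.Adj z x)

/-- `G` is prime: all its modules are trivial. -/
def IsPrime {V : Type} (G : SimpleGraph V) : Prop :=
  ∀ M : Set V, IsModule G M → M = ∅ ∨ M = Set.univ ∨ ∃ v, M = {v}

/-- A hereditary class of graphs: closed under isomorphism and induced subgraphs. -/
def IsHereditary (X : ∀ V : Type, SimpleGraph V → Prop) : Prop :=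
  ∀ (V W : Type) (G : SimpleGraph V) (H : SimpleGraph W), X V G → H.IsIndContained G → X W H

/-! ### The combinatorial core -/

variable {V : Type}

/-- The relation of `z` to `y` is determined by its relations to `X`, for `z` in `Z`. -/
def Det (R : V → V → Prop) (y : V) (X : Finset V) (Z : Set V) : Prop :=
  ∀ z ∈ Z, ∀ z' ∈ Z, (∀ x ∈ X, (R x z ↔ R x z')) → (R y z ↔ R y z')

/-- `T` contains a vertex determined by at most `k` others. -/
def FV (R : V → V → Prop) (T : Set V) (k : ℕ) : Prop :=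
  ∃ y ∈ T, ∃ X : Finset V, X.card ≤ k ∧ (∀ x ∈ X, x ∈ T ∧ x ≠ y) ∧
    Det R y X {z | z ∈ T ∧ z ≠ y ∧ z ∉ X}

/-- The idempotent version. -/
def Goal (R : V → V → Prop) (M : Set V) (K : ℕ) : Prop :=
  ∃ y ∈ M, ∃ X : Finset V, X.Nonempty ∧ X.card ≤ K ∧ (∀ x ∈ X, x ∈ M ∧ x ≠ y) ∧
    Det R y X {z | z ∈ M ∧ z ≠ y ∧ z ∉ X} ∧
    (∀ z ∈ M, z ≠ y → z ∉ X → (∀ x ∈ X, ¬ R x z) → ¬ R y z) ∧
    (∀ z ∈ M, z ≠ y → z ∉ X → (∀ x ∈ X, R x z) → R y z)

theorem det_compl {R : V → V → Prop} {y : V} {X : Finset V} {Z : Set V}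
    (h : Det R y X Z) : Det (fun a b => ¬ R a b) y X Z := by
  intro z hz z' hz' hx
  have := h z hz z' hz' (fun x hx' => by have := hx x hx'; tauto)
  simp only
  tauto

theorem fv_compl {R : V → V → Prop} {T : Set V} {k : ℕ} (h : FV R T k) :
    FV (fun a b => ¬ R a b) T k := by
  obtain ⟨y, hy, X, h1, h2, h3⟩ := h
  exact ⟨y, hy, X, h1, h2, det_compl h3⟩

theorem goal_of_compl {R : V → V → Prop} {M : Set V} {K : ℕ}
    (h : Goal (fun a b => ¬ R a b) M K) : Goal R M K := by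
  obtain ⟨y, hy, X, h1, h2, h3, h4, h5, h6⟩ := h
  refine ⟨y, hy, X, h1, h2, h3, ?_, ?_, ?_⟩
  · have := det_compl h4
    simp only [not_not] at this
    exact this
  · intro z hz hzy hzX hx
    have := h6 z hz hzy hzX hx
    exact this
  · intro z hz hzy hzX hx
    have := h5 z hz hzy hzX (fun x hx' => by simpa using hx x hx')
    simpa using this

theorem goal_of_small [DecidableEq V] {R : V → V → Prop} {M : Set V} {K : ℕ} {D : Finset V}
    (hM : ∀ z, z ∈ M ↔ z ∈ D) (hD : D.card ≤ K + 1) {a b : V} (ha : a ∈ M) (hb : b ∈ M)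
    (hab : a ≠ b) : Goal R M K := by
  refine ⟨a, ha, D.erase a, ⟨b, ?_⟩, ?_, ?_, ?_, ?_, ?_⟩
  · rw [Finset.mem_erase]; exact ⟨hab.symm, (hM b).1 hb⟩
  · rw [Finset.card_erase_of_mem ((hM a).1 ha)]; omega
  · intro x hx
    rw [Finset.mem_erase] at hx
    exact ⟨(hM x).2 hx.2, hx.1⟩
  · intro z hz
    exact absurd (Finset.mem_erase.2 ⟨hz.2.1, (hM z).1 hz.1⟩) hz.2.2
  · intro z hz hzy hzX
    exact absurd (Finset.mem_erase.2 ⟨hzy, (hM z).1 hz⟩) hzX
  · intro z hz hzy hzX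
    exact absurd (Finset.mem_erase.2 ⟨hzy, (hM z).1 hz⟩) hzX

theorem goal_of_dom [DecidableEq V] {R : V → V → Prop} {M : Set V} {k : ℕ}
    (hfv : ∀ T ⊆ M, T.Nonempty → FV R T k) {D1 : Finset V} (hD1M : ∀ x ∈ D1, x ∈ M)
    (hD1c : D1.card ≤ k + 1) (hdom : ∀ z ∈ M, z ∉ D1 → ∃ d ∈ D1, R d z)
    {a b : V} (ha : a ∈ M) (hb : b ∈ M) (hab : a ≠ b) : Goal R M (3 * k + 2) := by
  by_cases hT1 : ∃ z ∈ M, z ∉ D1
  swap
  · push Not at hT1
    exact goal_of_small (D := D1) (fun z => ⟨hT1 z, hD1M z⟩) (by omega) ha hb hab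
  obtain ⟨y1, hy1, X1, hX1c, hX1, hdet1⟩ := hfv {z | z ∈ M ∧ z ∉ D1} (fun z hz => hz.1) hT1
  by_cases hgood : ∀ z ∈ M, z ∉ D1 → z ≠ y1 → z ∉ X1 → (∀ x ∈ X1, R x z) → R y1 z
  · obtain ⟨d0, hd0, -⟩ := hdom y1 hy1.1 hy1.2
    refine ⟨y1, hy1.1, X1 ∪ D1, ⟨d0, Finset.mem_union_right _ hd0⟩, ?_, ?_, ?_, ?_, ?_⟩
    · have := Finset.card_union_le X1 D1
      omega
    · intro x hx
      rcases Finset.mem_union.1 hx with hx | hx
      · exact ⟨(hX1 x hx).1.1, (hX1 x hx).2⟩
      · exact ⟨hD1M x hx, fun h => hy1.2 (h ▸ hx)⟩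
    · intro z hz z' hz' hx
      simp only [Set.mem_setOf_eq, Finset.mem_union, not_or] at hz hz'
      exact hdet1 z ⟨⟨hz.1, hz.2.2.2⟩, hz.2.1, hz.2.2.1⟩ z'
        ⟨⟨hz'.1, hz'.2.2.2⟩, hz'.2.1, hz'.2.2.1⟩ (fun x hx' => hx x (Finset.mem_union_left _ hx'))
    · intro z hz hzy hzX hx
      rw [Finset.mem_union, not_or] at hzX
      obtain ⟨d, hd, hdz⟩ := hdom z hz hzX.2
      exact absurd hdz (hx d (Finset.mem_union_right _ hd))
    · intro z hz hzy hzX hx
      rw [Finset.mem_union, not_or] at hzX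
      exact hgood z hz hzX.2 hzy hzX.1 (fun x hx' => hx x (Finset.mem_union_left _ hx'))
  · push Not at hgood
    obtain ⟨z0, hz0M, hz0D, hz0y, hz0X, hz0all, hz0n⟩ := hgood
    -- `insert y1 X1` is co-dominating
    set D2 := insert y1 X1 with hD2
    have hD2M : ∀ x ∈ D2, x ∈ M ∧ x ∉ D1 := by
      intro x hx
      rcases Finset.mem_insert.1 hx with rfl | hx
      · exact hy1
      · exact (hX1 x hx).1
    have hD2c : D2.card ≤ k + 1 := (Finset.card_insert_le _ _).trans (by omega)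
    have hcodom : ∀ z ∈ M, z ∉ D1 → z ∉ D2 → ∃ d ∈ D2, ¬ R d z := by
      intro z hz hzD hzD2
      rw [hD2, Finset.mem_insert, not_or] at hzD2
      by_contra hcon
      push Not at hcon
      have h1 : ∀ x ∈ X1, R x z := fun x hx => hcon x (Finset.mem_insert_of_mem hx)
      have h2 := hdet1 z ⟨⟨hz, hzD⟩, hzD2.1, hzD2.2⟩ z0 ⟨⟨hz0M, hz0D⟩, hz0y, hz0X⟩
        (fun x hx => ⟨fun _ => hz0all x hx, fun _ => h1 x hx⟩)
      exact hz0n (h2.1 (hcon y1 (Finset.mem_insert_self _ _)))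
    by_cases hT2 : ∃ z ∈ M, z ∉ D1 ∧ z ∉ D2
    swap
    · push Not at hT2
      refine goal_of_small (D := D1 ∪ D2) (fun z => ⟨fun hz => ?_, fun hz => ?_⟩) ?_ ha hb hab
      · rw [Finset.mem_union]
        by_cases h : z ∈ D1
        · exact Or.inl h
        · exact Or.inr (hT2 z hz h)
      · rcases Finset.mem_union.1 hz with h | h
        · exact hD1M z h
        · exact (hD2M z h).1
      · have := Finset.card_union_le D1 D2
        omega
    obtain ⟨y2, hy2, X2, hX2c, hX2, hdet2⟩ :=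
      hfv {z | z ∈ M ∧ z ∉ D1 ∧ z ∉ D2} (fun z hz => hz.1) hT2
    refine ⟨y2, hy2.1, X2 ∪ (D1 ∪ D2), ⟨y1, ?_⟩, ?_, ?_, ?_, ?_, ?_⟩
    · exact Finset.mem_union_right _ (Finset.mem_union_right _ (Finset.mem_insert_self _ _))
    · have h1 := Finset.card_union_le X2 (D1 ∪ D2)
      have h2 := Finset.card_union_le D1 D2
      omega
    · intro x hx
      rcases Finset.mem_union.1 hx with hx | hx
      · exact ⟨(hX2 x hx).1.1, (hX2 x hx).2⟩
      · rcases Finset.mem_union.1 hx with hx | hx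
        · exact ⟨hD1M x hx, fun h => hy2.2.1 (h ▸ hx)⟩
        · exact ⟨(hD2M x hx).1, fun h => hy2.2.2 (h ▸ hx)⟩
    · intro z hz z' hz' hx
      simp only [Set.mem_setOf_eq, Finset.mem_union, not_or] at hz hz'
      exact hdet2 z ⟨⟨hz.1, hz.2.2.2.1, hz.2.2.2.2⟩, hz.2.1, hz.2.2.1⟩ z'
        ⟨⟨hz'.1, hz'.2.2.2.1, hz'.2.2.2.2⟩, hz'.2.1, hz'.2.2.1⟩
        (fun x hx' => hx x (Finset.mem_union_left _ hx'))
    · intro z hz hzy hzX hx
      simp only [Finset.mem_union, not_or] at hzX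
      obtain ⟨d, hd, hdz⟩ := hdom z hz hzX.2.1
      exact absurd hdz (hx d (Finset.mem_union_right _ (Finset.mem_union_left _ hd)))
    · intro z hz hzy hzX hx
      simp only [Finset.mem_union, not_or] at hzX
      obtain ⟨d, hd, hdz⟩ := hcodom z hz hzX.2.1 hzX.2.2
      exact absurd (hx d (Finset.mem_union_right _ (Finset.mem_union_right _ hd))) hdz

theorem goal_main [DecidableEq V] {R : V → V → Prop} {M : Set V} {k : ℕ}
    (hfv : ∀ T ⊆ M, T.Nonempty → FV R T k)
    {a b : V} (ha : a ∈ M) (hb : b ∈ M) (hab : a ≠ b) : Goal R M (3 * k + 2) := by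
  obtain ⟨y, hy, X, hXc, hX, hdet⟩ := hfv M (le_refl _) ⟨a, ha⟩
  by_cases h0 : ∀ z ∈ M, z ≠ y → z ∉ X → (∀ x ∈ X, ¬ R x z) → ¬ R y z
  · by_cases h1 : ∀ z ∈ M, z ≠ y → z ∉ X → (∀ x ∈ X, R x z) → R y z
    · by_cases hXne : X.Nonempty
      · exact ⟨y, hy, X, hXne, by omega, hX, hdet, h0, h1⟩
      · exfalso
        rw [Finset.not_nonempty_iff_eq_empty] at hXne
        subst hXne
        have : ∃ c ∈ M, c ≠ y := by
          by_cases hay : a = y
          · exact ⟨b, hb, fun h => hab (hay.trans h.symm)⟩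
          · exact ⟨a, ha, hay⟩
        obtain ⟨c, hc, hcy⟩ := this
        exact h0 c hc hcy (by simp) (by simp) (h1 c hc hcy (by simp) (by simp))
    · -- co-dominating
      push Not at h1
      obtain ⟨z0, hz0M, hz0y, hz0X, hz0all, hz0n⟩ := h1
      apply goal_of_compl
      refine goal_of_dom (fun T hT hne => fv_compl (hfv T hT hne)) (D1 := insert y X) ?_ ?_ ?_
        ha hb hab
      · intro x hx
        rcases Finset.mem_insert.1 hx with rfl | hx
        · exact hy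
        · exact (hX x hx).1
      · exact (Finset.card_insert_le _ _).trans (by omega)
      · intro z hz hzD
        rw [Finset.mem_insert, not_or] at hzD
        by_contra hcon
        push Not at hcon
        have h2 := hdet z ⟨hz, hzD.1, hzD.2⟩ z0 ⟨hz0M, hz0y, hz0X⟩
          (fun x hx => ⟨fun _ => hz0all x hx, fun _ => hcon x (Finset.mem_insert_of_mem hx)⟩)
        exact hz0n (h2.1 (hcon y (Finset.mem_insert_self _ _)))
  · push Not at h0
    obtain ⟨z0, hz0M, hz0y, hz0X, hz0all, hz0n⟩ := h0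
    refine goal_of_dom hfv (D1 := insert y X) ?_ ?_ ?_ ha hb hab
    · intro x hx
      rcases Finset.mem_insert.1 hx with rfl | hx
      · exact hy
      · exact (hX x hx).1
    · exact (Finset.card_insert_le _ _).trans (by omega)
    · intro z hz hzD
      rw [Finset.mem_insert, not_or] at hzD
      by_contra hcon
      push Not at hcon
      have h2 := hdet z ⟨hz, hzD.1, hzD.2⟩ z0 ⟨hz0M, hz0y, hz0X⟩
        (fun x hx => ⟨fun h => absurd h (hcon x (Finset.mem_insert_of_mem hx)),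
          fun h => absurd h (hz0all x hx)⟩)
      exact hcon y (Finset.mem_insert_self _ _) (h2.2 hz0n)

/-- From a module to the whole set. -/
theorem fv_of_goal {G : SimpleGraph V} {S M : Set V} {K : ℕ} (hMS : M ⊆ S)
    (hmod : ∀ z ∈ S, z ∉ M → ∀ x ∈ M, ∀ x' ∈ M, (G.Adj x z ↔ G.Adj x' z))
    (h : Goal G.Adj M K) : FV G.Adj S K := by
  obtain ⟨y, hy, X, ⟨x0, hx0⟩, hXc, hX, hdet, h0, h1⟩ := h
  refine ⟨y, hMS hy, X, hXc, fun x hx => ⟨hMS (hX x hx).1, (hX x hx).2⟩, ?_⟩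
  have cross : ∀ z z', z ∈ M → z ≠ y → z ∉ X → z' ∈ S → z' ∉ M →
      (∀ x ∈ X, (G.Adj x z ↔ G.Adj x z')) → (G.Adj y z ↔ G.Adj y z') := by
    intro z z' hz hzy hzX hz' hz'M hx
    by_cases hb : G.Adj y z'
    · have : G.Adj y z := h1 z hz hzy hzX (fun x hx' =>
        (hx x hx').2 ((hmod z' hz' hz'M x (hX x hx').1 y hy).2 hb))
      exact ⟨fun _ => hb, fun _ => this⟩
    · have : ¬ G.Adj y z := h0 z hz hzy hzX (fun x hx' hxz =>
        hb ((hmod z' hz' hz'M x (hX x hx').1 y hy).1 ((hx x hx').1 hxz)))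
      exact ⟨fun h => absurd h this, fun h => absurd h hb⟩
  intro z hz z' hz' hx
  by_cases hzM : z ∈ M
  · by_cases hz'M : z' ∈ M
    · exact hdet z ⟨hzM, hz.2.1, hz.2.2⟩ z' ⟨hz'M, hz'.2.1, hz'.2.2⟩ hx
    · exact cross z z' hzM hz.2.1 hz.2.2 hz'.1 hz'M hx
  · by_cases hz'M : z' ∈ M
    · exact (cross z' z hz'M hz'.2.1 hz'.2.2 hz.1 hzM (fun x hx' => (hx x hx').symm)).symm
    · have e1 := hmod z hz.1 hzM x0 (hX x0 hx0).1 y hy
      have e2 := hmod z' hz'.1 hz'M x0 (hX x0 hx0).1 y hy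
      have e3 := hx x0 hx0
      rw [← e1, ← e2]
      exact e3

/-! ### Links with the definitions -/

theorem fv_iff [Finite V] {G : SimpleGraph V} {S : Set V} {k : ℕ} :
    FV G.Adj S k ↔ ∃ y : S, vertexFun (G.induce S) y ≤ k := by
  classical
  constructor
  · rintro ⟨y, hy, X, hXc, hX, hdet⟩
    refine ⟨⟨y, hy⟩, ?_⟩
    refine le_trans (Nat.sInf_le ?_) hXc
    let e : Fin X.card ≃ X := X.equivFin.symm
    refine ⟨fun i => ⟨(e i).1, (hX _ (e i).2).1⟩, ?_, ?_⟩
    · intro i h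
      exact (hX _ (e i).2).2 (congrArg Subtype.val h)
    · refine ⟨fun p => ∃ z : S, z ≠ ⟨y, hy⟩ ∧ (∀ i, z.1 ≠ (e i).1) ∧
        (∀ i, (G.Adj (e i).1 z.1 ↔ p i)) ∧ G.Adj y z.1, ?_⟩
      intro z hzy hzx
      simp only [comap_adj, Function.Embedding.subtype_apply]
      have hzx' : ∀ i, z.1 ≠ (e i).1 := fun i h => hzx i (Subtype.ext h)
      have hnot : ∀ z : S, (∀ i, z.1 ≠ (e i).1) → z.1 ∉ X := by
        intro z h hz
        apply h (e.symm ⟨z.1, hz⟩)
        rw [Equiv.apply_symm_apply]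
      constructor
      · intro h
        exact ⟨z, hzy, hzx', fun i => Iff.rfl, h⟩
      · rintro ⟨z', hz'y, hz'x, hp, hadj⟩
        refine (hdet z ⟨z.2, fun h => hzy (Subtype.ext h), hnot z hzx'⟩ z'
          ⟨z'.2, fun h => hz'y (Subtype.ext h), hnot z' hz'x⟩ ?_).2 hadj
        intro x hx
        have := hp (e.symm ⟨x, hx⟩)
        rw [Equiv.apply_symm_apply] at this
        exact this.symm
  · rintro ⟨⟨y, hy⟩, h⟩
    have hne : {k | ∃ x : Fin k → S, IsFunctionOf (G.induce S) ⟨y, hy⟩ x}.Nonempty := by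
      have hfin : Finite {z : S // z ≠ ⟨y, hy⟩} := inferInstance
      obtain ⟨n, ⟨e⟩⟩ := Finite.exists_equiv_fin {z : S // z ≠ ⟨y, hy⟩}
      refine ⟨n, fun i => (e.symm i).1, fun i => (e.symm i).2, fun _ => True, ?_⟩
      intro z hz hzx
      exfalso
      apply hzx (e ⟨z, hz⟩)
      show z = (e.symm (e ⟨z, hz⟩)).1
      rw [Equiv.symm_apply_apply]
    obtain ⟨x, hx, f, hf⟩ := Nat.sInf_mem hne
    refine ⟨y, hy, Finset.univ.image (fun i => (x i).1), ?_, ?_, ?_⟩
    · refine le_trans Finset.card_image_le ?_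
      rw [Finset.card_univ, Fintype.card_fin]
      exact h
    · intro v hv
      obtain ⟨i, -, rfl⟩ := Finset.mem_image.1 hv
      exact ⟨(x i).2, fun h => hx i (Subtype.ext h)⟩
    · have hval : ∀ z, z ∈ S → z ≠ y → z ∉ Finset.univ.image (fun i => (x i).1) →
          (G.Adj y z ↔ f (fun i => G.Adj (x i).1 z)) := by
        intro z hz hzy hzX
        have := hf ⟨z, hz⟩ (fun h => hzy (congrArg Subtype.val h)) (fun i h => hzX (by
          rw [Finset.mem_image]
          exact ⟨i, Finset.mem_univ _, (congrArg Subtype.val h).symm⟩))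
        exact this
      intro z hz z' hz' hxx
      rw [hval z hz.1 hz.2.1 hz.2.2, hval z' hz'.1 hz'.2.1 hz'.2.2]
      have : (fun i => G.Adj (x i).1 z) = fun i => G.Adj (x i).1 z' := by
        funext i
        exact propext (hxx _ (Finset.mem_image.2 ⟨i, Finset.mem_univ _, rfl⟩))
      rw [this]

/-- If every prime graph of the hereditary class `X` has functionality at most `k`, then every
graph of `X` has functionality at most `3 k + 2`. -/
theorem result : ∀ (X : ∀ V : Type, SimpleGraph V → Prop), IsHereditary X → ∀ k : ℕ,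
    (∀ (V : Type) [Finite V] (G : SimpleGraph V), X V G → IsPrime G → FunLE G k) →
    ∀ (V : Type) [Finite V] (G : SimpleGraph V), X V G → FunLE G (3 * k + 2) := by
  classical
  intro X hX k hprime V _ G hG S hS
  rw [← fv_iff]
  by_cases hone : ∃ a ∈ S, ∃ b ∈ S, a ≠ b
  swap
  · push Not at hone
    obtain ⟨y, hy⟩ := hS
    refine ⟨y, hy, ∅, by simp, by simp, ?_⟩
    intro z hz
    exact absurd (hone z hz.1 y hy) hz.2.1
  -- modules of `G[S]` with at least two vertices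
  let Good : Set V → Prop := fun M => M ⊆ S ∧ (∃ a ∈ M, ∃ b ∈ M, a ≠ b) ∧
    ∀ z ∈ S, z ∉ M → ∀ x ∈ M, ∀ x' ∈ M, (G.Adj x z ↔ G.Adj x' z)
  have hSgood : Good S := ⟨le_refl _, hone, fun z hz hz' => absurd hz hz'⟩
  obtain ⟨M, hM, hmin⟩ := Set.Finite.exists_minimalFor (fun M : Set V => M) {M | Good M}
    (Set.toFinite _) ⟨S, hSgood⟩
  obtain ⟨hMS, ⟨a, ha, b, hb, hab⟩, hmod⟩ := hM
  apply fv_of_goal hMS hmod
  refine goal_main ?_ ha hb hab
  -- `G[M]` is prime
  have hind : (G.induce M).IsIndContained G := ⟨SimpleGraph.Embedding.induce M⟩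
  have hpr : IsPrime (G.induce M) := by
    intro N hN
    by_cases htwo : ∃ c ∈ N, ∃ d ∈ N, c ≠ d
    · right; left
      have hgood : Good (Subtype.val '' N) := by
        refine ⟨?_, ?_, ?_⟩
        · rintro v ⟨w, -, rfl⟩
          exact hMS w.2
        · obtain ⟨c, hc, d, hd, hcd⟩ := htwo
          exact ⟨c.1, ⟨c, hc, rfl⟩, d.1, ⟨d, hd, rfl⟩, fun h => hcd (Subtype.ext h)⟩
        · rintro z hz hzN x ⟨x, hx, rfl⟩ x' ⟨x', hx', rfl⟩
          by_cases hzM : z ∈ M
          · have hzN' : (⟨z, hzM⟩ : M) ∉ N := fun h => hzN ⟨_, h, rfl⟩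
            rcases hN _ hzN' with h | h
            · have h1 := h x hx
              have h2 := h x' hx'
              simp only [comap_adj, Function.Embedding.subtype_apply] at h1 h2
              exact ⟨fun _ => h2.symm, fun _ => h1.symm⟩
            · have h1 := h x hx
              have h2 := h x' hx'
              simp only [comap_adj, Function.Embedding.subtype_apply] at h1 h2
              exact ⟨fun h => absurd h.symm h1, fun h => absurd h.symm h2⟩
          · exact hmod z hz hzM x.1 x.2 x'.1 x'.2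
      have hsub : (Subtype.val '' N : Set V) ⊆ M := by
        rintro v ⟨w, -, rfl⟩
        exact w.2
      have hle := hmin hgood hsub
      ext v
      simp only [Set.mem_univ, iff_true]
      obtain ⟨w, hw, hwv⟩ := hle v.2
      rwa [← Subtype.ext hwv]
    · push Not at htwo
      by_cases hne : N.Nonempty
      · right; right
        obtain ⟨c, hc⟩ := hne
        refine ⟨c, ?_⟩
        ext d
        simp only [Set.mem_singleton_iff]
        exact ⟨fun hd => htwo d hd c hc, fun h => h ▸ hc⟩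
      · left
        exact Set.not_nonempty_iff_eq_empty.1 hne
  have hfun := hprime M (G.induce M) (hX _ _ _ _ hG hind) hpr
  intro T hTM hTne
  -- transfer from `G[M]`
  obtain ⟨t, ht⟩ := hTne
  have hne' : ({x : M | x.1 ∈ T} : Set M).Nonempty := ⟨⟨t, hTM ht⟩, ht⟩
  obtain ⟨y, hy, Y, hYc, hY, hdet⟩ := fv_iff.2 (hfun {x : M | x.1 ∈ T} hne')
  refine ⟨y.1, hy, Y.map (Function.Embedding.subtype _), ?_, ?_, ?_⟩
  · rw [Finset.card_map]; exact hYc
  · intro x hx
    rw [Finset.mem_map] at hx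
    obtain ⟨w, hw, rfl⟩ := hx
    exact ⟨(hY w hw).1, fun h => (hY w hw).2 (Subtype.ext h)⟩
  · intro z hz z' hz' hx
    have hnot : ∀ (w : V) (hw : w ∈ M), w ∉ Y.map (Function.Embedding.subtype _) →
        (⟨w, hw⟩ : M) ∉ Y := by
      intro w hw hn h
      exact hn (Finset.mem_map.2 ⟨_, h, rfl⟩)
    exact hdet ⟨z, hTM hz.1⟩ ⟨hz.1, fun h => hz.2.1 (congrArg Subtype.val h),
        hnot z _ hz.2.2⟩ ⟨z', hTM hz'.1⟩ ⟨hz'.1, fun h => hz'.2.1 (congrArg Subtype.val h),
        hnot z' _ hz'.2.2⟩ (fun x hx' => hx x.1 (Finset.mem_map.2 ⟨x, hx', rfl⟩))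

end Pool.Agent.Results.MP_42f001_co.PrimeSuffices
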